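import Mathlib
import Pool.Agent.TH192.Fin

/-!
# Orbifold fundamental groups of lc Fano surface pairs are not uniformly virtually abelian

For every `c` there is a two-dimensional log canonical Fano pair `(X, Δ)` such that all abelian
subgroups of finite index of its orbifold fundamental group have index greater than `c`.

The example is `X = ℙ²` and `Δ = (1 - 1/m) L_∞ + 2/3 (L₁ + L₂ + L₃)`, where `L₁, L₂, L₃` are three
lines through one point and `L_∞` is a line that does not contain it.  Its group is
`⟨x, y, z, c | x³ = y³ = z³ = 1, x y z = c, c central, c^m = 1⟩`.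
-/

open AlgebraicGeometry CategoryTheory

namespace Pool.Agent.Results.MP_1da757_ag.NotJordan

open Pool.Agent.TH192.Orb Pool.Agent.TH192.PP

theorem result (c : ℕ) : ∃ (X : Scheme.{0}) (_ : IsIntegral X)
    (s : X ⟶ Spec (CommRingCat.of ℂ)) (Δ : X → ℝ), IsLCFanoPair s 2 Δ ∧
      ∃ x₀ : OrbSpace s Δ, ∀ A : Subgroup (OrbifoldPi1 s Δ x₀),
        (∀ a ∈ A, ∀ b ∈ A, a * b = b * a) → A.index ≠ 0 → c < A.index := by
  have hm : 2 ≤ 3 * c + 3 := by omega
  refine ⟨ClusterLift.PSpace 2 ℂ, inferInstance, sP, DD (3 * c + 3), isLCFanoPair (by omega),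
    x0 hm, ?_⟩
  intro A hA hn
  have h := dvd_three_index hm A hA hn
  have h2 : 0 < A.index := Nat.pos_of_ne_zero hn
  have h3 := Nat.le_of_dvd (by omega) h
  omega

end Pool.Agent.Results.MP_1da757_ag.NotJordan
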